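import Mathlib
open MeasureTheory
namespace Pool.Agent.H.MP_c09afc_pr

variable {d : ℕ}

/-- the unit vector of a direction -/
def vec (e : Fin d × Bool) : Fin d → ℤ := Pi.single e.1 (if e.2 then 1 else -1)

/-- one step of rotor walk on pairs (position, rotor configuration): turn the rotor at the
current position by the local mechanism, then move along the new rotor -/
def step (m : (Fin d → ℤ) → Equiv.Perm (Fin d × Bool))
    (s : (Fin d → ℤ) × ((Fin d → ℤ) → Fin d × Bool)) :
    (Fin d → ℤ) × ((Fin d → ℤ) → Fin d × Bool) :=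
  (s.1 + vec (m s.1 (s.2 s.1)), Function.update s.2 s.1 (m s.1 (s.2 s.1)))

/-- position at time t of the walk started at a with initial configuration ρ -/
def pos (m : (Fin d → ℤ) → Equiv.Perm (Fin d × Bool)) (a : Fin d → ℤ)
    (ρ : (Fin d → ℤ) → Fin d × Bool) (t : ℕ) : Fin d → ℤ := ((step m)^[t] (a, ρ)).1

/-- rotor configuration at time t -/
def rot (m : (Fin d → ℤ) → Equiv.Perm (Fin d × Bool)) (a : Fin d → ℤ)
    (ρ : (Fin d → ℤ) → Fin d × Bool) (t : ℕ) : (Fin d → ℤ) → Fin d × Bool :=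
  ((step m)^[t] (a, ρ)).2

/-- infinite-step stationary probability measure: almost surely the walk is transient, and the
final configuration σ ρ (the pointwise limit of the rotor configurations) has the same law -/
def Stat (m : (Fin d → ℤ) → Equiv.Perm (Fin d × Bool)) (a : Fin d → ℤ)
    (μ : Measure ((Fin d → ℤ) → Fin d × Bool)) : Prop :=
  IsProbabilityMeasure μ ∧ (∀ᵐ ρ ∂μ, ∀ x, {t | pos m a ρ t = x}.Finite) ∧
    ∃ σ : ((Fin d → ℤ) → Fin d × Bool) → ((Fin d → ℤ) → Fin d × Bool), Measurable σ ∧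
      (∀ᵐ ρ ∂μ, ∀ x, ∀ᶠ t in Filter.atTop, rot m a ρ t x = σ ρ x) ∧ μ.map σ = μ

end Pool.Agent.H.MP_c09afc_pr
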