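import Mathlib
import Pool.Agent.H.MP_c09afc_pr.Defs
open Finset Filter MeasureTheory
namespace Pool.Agent.H.MP_c09afc_pr

variable {d : ℕ} (m : (Fin d → ℤ) → Equiv.Perm (Fin d × Bool))

def cnt (π : Equiv.Perm (Fin d × Bool)) (r : Fin d × Bool) (k : ℕ) (e : Fin d × Bool) : ℕ :=
  Nat.count (fun j => (π ^ (j + 1)) r = e) k

def adv (v : (Fin d → ℤ) → ℕ) (ρ : (Fin d → ℤ) → Fin d × Bool) (x : Fin d → ℤ) : Fin d × Bool :=
  (m x ^ v x) (ρ x)

def inflow (ρ : (Fin d → ℤ) → Fin d × Bool) (v : (Fin d → ℤ) → ℕ) (x : Fin d → ℤ) : ℕ :=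
  ∑ e, cnt (m (x - vec e)) (ρ (x - vec e)) (v (x - vec e)) e

lemma cnt_add (π : Equiv.Perm (Fin d × Bool)) (r : Fin d × Bool) (k l : ℕ) (e : Fin d × Bool) :
    cnt π r (k + l) e = cnt π r k e + cnt π ((π ^ k) r) l e := by
  unfold cnt
  rw [Nat.count_add]
  congr 2
  funext j
  rw [← Equiv.Perm.mul_apply, ← pow_add, show k + j + 1 = j + 1 + k by ring]

lemma inflow_add (ρ : (Fin d → ℤ) → Fin d × Bool) (u v : (Fin d → ℤ) → ℕ) (x : Fin d → ℤ) :
    inflow m ρ (u + v) x = inflow m ρ u x + inflow m (adv m u ρ) v x := by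
  unfold inflow
  rw [← sum_add_distrib]
  exact sum_congr rfl fun e _ => cnt_add _ _ _ _ _

lemma inflow_mono (ρ : (Fin d → ℤ) → Fin d × Bool) {u v : (Fin d → ℤ) → ℕ} (h : u ≤ v)
    (x : Fin d → ℤ) : inflow m ρ u x ≤ inflow m ρ v x :=
  sum_le_sum fun _ _ => Nat.count_monotone _ (h _)

lemma adv_add (ρ : (Fin d → ℤ) → Fin d × Bool) (u v : (Fin d → ℤ) → ℕ) :
    adv m v (adv m u ρ) = adv m (u + v) ρ := by
  funext x
  simp only [adv, Pi.add_apply]
  rw [← Equiv.Perm.mul_apply, ← pow_add, add_comm]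

def nv (c : Fin d → ℤ) (ρ : (Fin d → ℤ) → Fin d × Bool) (t : ℕ) (x : Fin d → ℤ) : ℕ :=
  Nat.count (fun i => pos m c ρ i = x) t

section
variable (c : Fin d → ℤ) (ρ : (Fin d → ℤ) → Fin d × Bool)

lemma pos_succ (k : ℕ) :
    pos m c ρ (k + 1) = pos m c ρ k + vec (m (pos m c ρ k) (rot m c ρ k (pos m c ρ k))) := by
  simp only [pos, rot, Function.iterate_succ_apply', step]

lemma rot_succ (k : ℕ) : rot m c ρ (k + 1) =
    Function.update (rot m c ρ k) (pos m c ρ k) (m (pos m c ρ k) (rot m c ρ k (pos m c ρ k))) := by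
  simp only [pos, rot, Function.iterate_succ_apply', step]

lemma rot_eq (k : ℕ) : rot m c ρ k = adv m (nv m c ρ k) ρ := by
  funext y
  unfold adv nv
  induction k with
  | zero => simp [rot]
  | succ k ih =>
    rw [rot_succ, Nat.count_succ]
    by_cases h : pos m c ρ k = y
    · rw [if_pos h, h, Function.update_self, ih, pow_succ', Equiv.Perm.mul_apply]
    · rw [if_neg h, Function.update_of_ne (Ne.symm h), ih, add_zero]

lemma flow_id (t : ℕ) (x : Fin d → ℤ) :
    nv m c ρ t x + (if pos m c ρ t = x then 1 else 0) =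
      (if c = x then 1 else 0) + inflow m ρ (nv m c ρ t) x := by
  induction t with
  | zero => simp [nv, pos, inflow, cnt]
  | succ t ih =>
    have h1 : nv m c ρ (t + 1) x = nv m c ρ t x + if pos m c ρ t = x then 1 else 0 :=
      Nat.count_succ _ _
    have h2 : inflow m ρ (nv m c ρ (t + 1)) x =
        inflow m ρ (nv m c ρ t) x + if pos m c ρ (t + 1) = x then 1 else 0 := by
      set y := pos m c ρ t with hy
      set e₀ := m y (rot m c ρ t y) with he
      have h3 : (if pos m c ρ (t + 1) = x then 1 else 0) =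
          ∑ e : Fin d × Bool, if e₀ = e then (if y = x - vec e then 1 else 0) else 0 := by
        rw [sum_ite_eq, if_pos (mem_univ _), pos_succ]
        simp only [eq_sub_iff_add_eq]
        rfl
      rw [h3]
      unfold inflow
      rw [← sum_add_distrib]
      refine sum_congr rfl fun e _ => ?_
      have h4 : nv m c ρ (t + 1) (x - vec e) =
          nv m c ρ t (x - vec e) + if y = x - vec e then 1 else 0 := Nat.count_succ _ _
      rw [h4]
      by_cases h5 : y = x - vec e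
      · rw [if_pos h5, ← h5]
        unfold cnt
        rw [Nat.count_succ, he, rot_eq, adv, pow_succ', Equiv.Perm.mul_apply]
      · simp [h5]
    rw [h1, h2, ih]; ring

def Trans : Prop := ∀ x, {t | pos m c ρ t = x}.Finite

noncomputable def od (x : Fin d → ℤ) : ℕ := {t | pos m c ρ t = x}.ncard

noncomputable def fin : (Fin d → ℤ) → Fin d × Bool := adv m (od m c ρ) ρ

variable {m c ρ}

lemma nv_ev (h : Trans m c ρ) (x : Fin d → ℤ) :
    ∀ᶠ t in atTop, nv m c ρ t x = od m c ρ x ∧ pos m c ρ t ≠ x := by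
  obtain ⟨B, hB⟩ := (h x).bddAbove
  filter_upwards [eventually_gt_atTop B] with t ht
  refine ⟨?_, fun h' => absurd (hB h') (not_le.2 ht)⟩
  rw [nv, od, Nat.count_eq_card_filter_range, ← Set.ncard_coe_finset]
  congr 1
  ext i
  simp only [coe_filter, mem_range, Set.mem_ofPred_eq, and_iff_right_iff_imp]
  exact fun hi => (hB hi).trans_lt ht

lemma rot_ev (h : Trans m c ρ) (x : Fin d → ℤ) : ∀ᶠ t in atTop, rot m c ρ t x = fin m c ρ x := by
  filter_upwards [nv_ev h x] with t ht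
  rw [rot_eq, fin, adv, adv, ht.1]

lemma od_id (h : Trans m c ρ) (x : Fin d → ℤ) :
    od m c ρ x = (if c = x then 1 else 0) + inflow m ρ (od m c ρ) x := by
  obtain ⟨t, h1, h2⟩ := ((nv_ev h x).and
    (eventually_all.2 fun e : Fin d × Bool => nv_ev h (x - vec e))).exists
  have h3 := flow_id m c ρ t x
  rw [if_neg h1.2, add_zero, h1.1] at h3
  rw [h3]
  congr 1
  exact sum_congr rfl fun e _ => by rw [(h2 e).1]

end

def Sup (ρ : (Fin d → ℤ) → Fin d × Bool) (κ v : (Fin d → ℤ) → ℕ) : Prop :=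
  ∀ x, κ x + inflow m ρ v x ≤ v x

def dl (c x : Fin d → ℤ) : ℕ := if c = x then 1 else 0

variable {m}

lemma peel {ρ : (Fin d → ℤ) → Fin d × Bool} {c : Fin d → ℤ} {κ v : (Fin d → ℤ) → ℕ}
    (h : Sup m ρ (dl c + κ) v) :
    Trans m c ρ ∧ od m c ρ ≤ v ∧ Sup m (fin m c ρ) κ (v - od m c ρ) := by
  have h1 : ∀ t, nv m c ρ t ≤ v := by
    intro t
    induction t with
    | zero => intro x; simp [nv]
    | succ t ih =>
      intro x
      have h2 : nv m c ρ (t + 1) x = nv m c ρ t x + if pos m c ρ t = x then 1 else 0 :=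
        Nat.count_succ _ _
      show nv m c ρ (t + 1) x ≤ v x
      rw [h2, flow_id]
      have h3 := h x
      have h4 := inflow_mono m ρ ih x
      simp only [Pi.add_apply, dl] at h3
      omega
  have h2 : Trans m c ρ := by
    intro x
    by_contra hx
    have h3 : nv m c ρ (Nat.nth (fun i => pos m c ρ i = x) (v x + 1)) x ≤ v x := h1 _ x
    rw [nv, Nat.count_nth_of_infinite hx] at h3
    omega
  have h3 : od m c ρ ≤ v := fun x => by
    obtain ⟨t, ht⟩ := (nv_ev h2 x).exists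
    rw [← ht.1]; exact h1 t x
  refine ⟨h2, h3, fun x => ?_⟩
  have h4 := inflow_add m ρ (od m c ρ) (v - od m c ρ) x
  rw [add_tsub_cancel_of_le h3] at h4
  have h5 := h x
  have h6 := od_id h2 x
  have h7 := h3 x
  simp only [Pi.add_apply, dl, Pi.sub_apply] at h5 ⊢
  unfold fin
  omega

lemma stack {ρ : (Fin d → ℤ) → Fin d × Bool} {c : Fin d → ℤ} {κ w : (Fin d → ℤ) → ℕ}
    (h : Trans m c ρ) (h' : Sup m (fin m c ρ) κ w) : Sup m ρ (dl c + κ) (od m c ρ + w) := by
  intro x
  have h4 := inflow_add m ρ (od m c ρ) w x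
  have h5 := h' x
  have h6 := od_id h x
  simp only [Pi.add_apply, dl] at h5 ⊢
  unfold fin at h5
  omega

lemma sup_zero (ρ : (Fin d → ℤ) → Fin d × Bool) : Sup m ρ 0 0 := by
  intro x; simp [inflow, cnt]

lemma two {ρ : (Fin d → ℤ) → Fin d × Bool} {a b : Fin d → ℤ} {v : (Fin d → ℤ) → ℕ}
    (h : Sup m ρ (dl a + dl b) v) :
    Trans m a ρ ∧ Trans m b (fin m a ρ) ∧ od m a ρ + od m b (fin m a ρ) ≤ v ∧
      Sup m ρ (dl a + dl b) (od m a ρ + od m b (fin m a ρ)) := by
  obtain ⟨h1, h2, h3⟩ := peel h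
  rw [← add_zero (dl b)] at h3
  obtain ⟨h4, h5, -⟩ := peel h3
  refine ⟨h1, h4, fun x => ?_, ?_⟩
  · have := h2 x; have := h5 x
    simp only [Pi.add_apply, Pi.sub_apply] at *
    omega
  · have := stack h1 (stack h4 (sup_zero _))
    simpa using this

lemma comm {ρ : (Fin d → ℤ) → Fin d × Bool} {a b : Fin d → ℤ} {v : (Fin d → ℤ) → ℕ}
    (h : Sup m ρ (dl a + dl b) v) :
    Trans m b ρ ∧ Trans m a (fin m b ρ) ∧ fin m a (fin m b ρ) = fin m b (fin m a ρ) := by
  obtain ⟨-, -, -, h4⟩ := two h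
  rw [add_comm] at h4
  obtain ⟨k1, k2, k3, k4⟩ := two h4
  rw [add_comm] at k4
  obtain ⟨-, -, l3, -⟩ := two k4
  refine ⟨k1, k2, ?_⟩
  unfold fin at *
  rw [adv_add, adv_add, le_antisymm k3 l3]

lemma many (a : Fin d → ℤ) (n : ℕ) : ∀ ρ : (Fin d → ℤ) → Fin d × Bool,
    (∀ k, Trans m a ((fin m a)^[k] ρ)) → ∃ v, Sup m ρ (n • dl a) v := by
  induction n with
  | zero => exact fun ρ _ => ⟨0, by simpa using sup_zero ρ⟩
  | succ n ih =>
    intro ρ h
    obtain ⟨v, hv⟩ := ih (fin m a ρ) fun k => h (k + 1)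
    exact ⟨_, by rw [succ_nsmul']; exact stack (h 0) hv⟩

lemma turn (hm : ∀ x, (m x).IsCycleOn Set.univ) (a : Fin d → ℤ) (e : Fin d × Bool)
    (ρ : (Fin d → ℤ) → Fin d × Bool) (h : ∀ k, Trans m a ((fin m a)^[k] ρ)) :
    ∃ v, Sup m ρ (dl a + dl (a + vec e)) v := by
  set N := (univ : Finset (Fin d × Bool)).card
  obtain ⟨v, hv⟩ := many a (N + 1) ρ h
  have h1 : N • dl a ≤ v := fun x => by
    have := hv x
    simp only [Pi.smul_apply, smul_eq_mul] at this ⊢
    nlinarith
  refine ⟨v - N • dl a, fun x => ?_⟩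
  have h2 := inflow_add m ρ (v - N • dl a) (N • dl a) x
  rw [tsub_add_cancel_of_le h1] at h2
  have h3 : dl (a + vec e) x ≤ inflow m (adv m (v - N • dl a) ρ) (N • dl a) x := by
    generalize adv m (v - N • dl a) ρ = ρ'
    unfold dl
    split_ifs with hx
    · refine le_trans ?_ (single_le_sum (f := fun e => cnt (m (x - vec e)) (ρ' (x - vec e))
        ((N • dl a) (x - vec e)) e) (fun _ _ => Nat.zero_le _) (mem_univ e))
      have h4 : x - vec e = a := by rw [← hx]; simp
      have hc : (m a).IsCycleOn ((univ : Finset (Fin d × Bool)) : Set _) := by simpa using hm a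
      obtain ⟨j, hj, hj'⟩ := hc.exists_pow_eq (mem_univ (m a (ρ' a))) (mem_univ e)
      simp only [h4, Pi.smul_apply, dl, if_true, smul_eq_mul, mul_one]
      exact Nat.one_le_iff_ne_zero.2 (Nat.count_ne_iff_exists.2
        ⟨j, hj, by rw [pow_succ, Equiv.Perm.mul_apply, hj']⟩)
    · exact Nat.zero_le _
  have h4 := hv x
  have h5 := h1 x
  simp only [Pi.add_apply, Pi.sub_apply, Pi.smul_apply, smul_eq_mul, add_mul, one_mul] at h4 h5 ⊢
  omega

variable (m)

lemma meas_step : Measurable (step m) := by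
  refine measurable_from_prod_countable_right fun x => ?_
  have h : Measurable fun ρ : (Fin d → ℤ) → Fin d × Bool => m x (ρ x) :=
    (measurable_of_countable _).comp (measurable_pi_apply x)
  exact ((measurable_of_countable fun e => x + vec e).comp h).prodMk
    (measurable_update'.comp (measurable_id.prodMk h))

lemma meas_vis (c x : Fin d → ℤ) :
    Measurable fun ρ : (Fin d → ℤ) → Fin d × Bool => {t | pos m c ρ t = x} := by
  refine measurable_set_iff.2 fun t => ?_
  have h : Measurable fun ρ : (Fin d → ℤ) → Fin d × Bool => pos m c ρ t :=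
    (((meas_step m).iterate t).comp measurable_prodMk_left).fst
  exact (measurable_of_countable fun y => y = x).comp h

lemma meas_trans (c : Fin d → ℤ) : MeasurableSet {ρ | Trans m c ρ} := by
  simp only [Trans, Set.ofPred_forall]
  exact MeasurableSet.iInter fun x => meas_vis m c x MeasurableSet.setOfPred_finite

lemma meas_fin (c : Fin d → ℤ) : Measurable (fin m c) := by
  refine measurable_pi_lambda _ fun x => ?_
  exact (measurable_of_countable fun p : ℕ × (Fin d × Bool) => (m x ^ p.1) p.2).comp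
    ((measurable_ncard.comp (meas_vis m c x)).prodMk (measurable_pi_apply x))

lemma stat_iff (a : Fin d → ℤ) (μ : Measure ((Fin d → ℤ) → Fin d × Bool)) :
    Stat m a μ ↔ IsProbabilityMeasure μ ∧ (∀ᵐ ρ ∂μ, Trans m a ρ) ∧ μ.map (fin m a) = μ := by
  refine and_congr_right fun _ => and_congr_right fun h => ⟨fun ⟨σ, _, h2, h3⟩ => ?_, fun h3 => ?_⟩
  · rw [← h3]
    conv_lhs => rw [h3]
    refine Measure.map_congr ?_
    filter_upwards [h, h2] with ρ k1 k2
    funext x
    obtain ⟨t, h4, h5⟩ := ((rot_ev k1 x).and (k2 x)).exists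
    rw [← h4, h5]
  · exact ⟨_, meas_fin m a, h.mono fun ρ hρ x => rot_ev hρ x, h3⟩

lemma shift (hm : ∀ x, (m x).IsCycleOn Set.univ) (a : Fin d → ℤ) (e : Fin d × Bool)
    (μ : Measure ((Fin d → ℤ) → Fin d × Bool)) (h : Stat m a μ) :
    (∀ᵐ ρ ∂μ, Trans m (a + vec e) ρ) ∧ Stat m a (μ.map (fin m (a + vec e))) := by
  obtain ⟨h1, h2, h3⟩ := (stat_iff m a μ).1 h
  have mp : MeasurePreserving (fin m a) μ μ := ⟨meas_fin m a, h3⟩
  have h4 : ∀ᵐ ρ ∂μ, ∀ k, Trans m a ((fin m a)^[k] ρ) :=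
    ae_all_iff.2 fun k => (mp.iterate k).quasiMeasurePreserving.ae h2
  have h5 := h4.mono fun ρ hρ => (turn hm a e ρ hρ).elim fun v hv => comm hv
  refine ⟨h5.mono fun ρ h => h.1, (stat_iff m a _).2 ⟨?_, ?_, ?_⟩⟩
  · exact Measure.isProbabilityMeasure_map (meas_fin m _).aemeasurable
  · exact (ae_map_iff (meas_fin m _).aemeasurable (meas_trans m a)).2 (h5.mono fun ρ h => h.2.1)
  · rw [Measure.map_map (meas_fin m _) (meas_fin m _)]
    conv_rhs => rw [← h3]
    rw [Measure.map_map (meas_fin m _) (meas_fin m _)]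
    exact Measure.map_congr (h5.mono fun ρ h => h.2.2)

end Pool.Agent.H.MP_c09afc_pr
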