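import Mathlib
import Pool.Agent.H.MP_b041da_pr.B
import Pool.Agent.H.MP_c09afc_pr.Defs
open Finset Filter Topology MeasureTheory
namespace Pool.Agent.H.MP_c09afc_pr
open Pool.Agent.H.MP_b041da_pr (b u b_deriv b_zero b_nonneg b_sum b_sup b_tv u_int u_nonneg)

variable {d : ℕ}

noncomputable def cc (i : Fin d) (t : ℝ) (k : ℤ) : ℝ :=
  if i.val < 3 then b t (k + 1) - b t k else b t k

noncomputable def q (t : ℝ) (x : Fin d → ℤ) : ℝ := ∏ i, cc i t (x i)

noncomputable def Q (x : Fin d → ℤ) : ℝ := ∫ t in Set.Ioi (0:ℝ), q t x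

lemma cc_deriv (i : Fin d) (t : ℝ) (k : ℤ) : HasDerivAt (fun t => cc i t k)
    ((cc i t (k + 1) - cc i t k + (cc i t (k + -1) - cc i t k)) / 4) t := by
  unfold cc
  split_ifs
  · refine ((b_deriv t (k + 1)).sub (b_deriv t k)).congr_deriv ?_
    rw [show k + 1 + -1 = k by ring, show k + -1 + 1 = k by ring]; ring
  · exact b_deriv t k

lemma q_eq (t : ℝ) (x : Fin d → ℤ) (i : Fin d) :
    q t x = cc i t (x i) * ∏ l ∈ univ.erase i, cc l t (x l) :=
  (mul_prod_erase _ (fun l => cc l t (x l)) (mem_univ i)).symm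

lemma q_shift (t : ℝ) (x : Fin d → ℤ) (i : Fin d) (s : ℤ) :
    q t (x + Pi.single i s) = cc i t (x i + s) * ∏ l ∈ univ.erase i, cc l t (x l) := by
  rw [q_eq t _ i]
  congr 1
  · simp
  · exact prod_congr rfl fun l hl => by simp [Pi.single_eq_of_ne (ne_of_mem_erase hl)]

lemma q_deriv (t : ℝ) (x : Fin d → ℤ) :
    HasDerivAt (fun t => q t x) ((∑ e : Fin d × Bool, (q t (x + vec e) - q t x)) / 4) t := by
  have h := HasDerivAt.fun_finsetProd (u := univ) (f := fun i t => cc i t (x i))
    (fun i _ => cc_deriv i t (x i))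
  refine h.congr_deriv ?_
  rw [Fintype.sum_prod_type, sum_div]
  refine sum_congr rfl fun i _ => ?_
  simp only [Fintype.sum_bool, vec, if_true, Bool.false_eq_true, if_false, q_shift, smul_eq_mul]
  rw [q_eq t x i]; ring

lemma q_cont (x : Fin d → ℤ) : Continuous fun t => q t x :=
  continuous_iff_continuousAt.2 fun t => (q_deriv t x).continuousAt

lemma cc_sum {t : ℝ} (ht : 0 ≤ t) (i : Fin d) (S : Finset ℤ) :
    ∑ k ∈ S, |cc i t k| ≤ if i.val < 3 then 4 * u t else 1 := by
  unfold cc
  split_ifs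
  · have := b_tv ht S 1 (Or.inl rfl)
    have := b_sup ht 0
    linarith
  · simpa only [abs_of_nonneg (b_nonneg ht _)] using b_sum ht S

variable (hd : 3 ≤ d)
include hd

lemma q_sum {t : ℝ} (ht : 0 ≤ t) (S : Finset (Fin d → ℤ)) :
    ∑ x ∈ S, |q t x| ≤ 4 * (16 * u t ^ 3) := by
  classical
  have h1 : S ⊆ Fintype.piFinset fun i => S.image fun x => x i := fun x hx =>
    Fintype.mem_piFinset.2 fun i => mem_image_of_mem _ hx
  refine (sum_le_sum_of_subset_of_nonneg h1 fun _ _ _ => abs_nonneg _).trans ?_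
  simp only [q, abs_prod]
  rw [← prod_univ_sum (fun i => S.image fun x => x i) fun i k => |cc i t k|]
  refine (prod_le_prod (fun i _ => sum_nonneg fun _ _ => abs_nonneg _)
    fun i _ => cc_sum ht i _).trans (le_of_eq ?_)
  rw [prod_ite, prod_const_one, mul_one, prod_const]
  have : (univ.filter fun i : Fin d => i.val < 3).card = 3 := by
    rw [Fin.card_filter_val_lt]; omega
  rw [this]; ring

lemma q_int (x : Fin d → ℤ) : IntegrableOn (fun t => q t x) (Set.Ioi (0:ℝ)) := by
  refine (u_int.const_mul 4).mono' (q_cont x).aestronglyMeasurable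
    ((ae_restrict_iff' measurableSet_Ioi).2 (Eventually.of_forall fun t ht => ?_))
  simpa using q_sum hd (le_of_lt ht) {x}

lemma Q_lap (x : Fin d → ℤ) : ∑ e : Fin d × Bool, (Q (x + vec e) - Q x) = -4 * q 0 x := by
  have hi : ∀ e : Fin d × Bool,
      IntegrableOn (fun t => q t (x + vec e) - q t x) (Set.Ioi (0:ℝ)) :=
    fun e => (q_int hd _).sub (q_int hd _)
  have hl : Tendsto (fun t => q t x) atTop (𝓝 0) := by
    have hu : Tendsto u atTop (𝓝 0) := by
      unfold u
      exact tendsto_const_nhds.div_atTop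
        (Real.tendsto_sqrt_atTop.comp (tendsto_atTop_add_const_left _ _ tendsto_id))
    have h3 : Tendsto (fun t => 4 * (16 * u t ^ 3)) atTop (𝓝 0) := by
      simpa using ((hu.pow 3).const_mul 16).const_mul 4
    refine squeeze_zero_norm' ?_ h3
    filter_upwards [eventually_ge_atTop 0] with t ht
    simpa using q_sum hd ht {x}
  have h := integral_Ioi_of_hasDerivAt_of_tendsto' (a := 0) (fun t _ => q_deriv t x)
    ((integrable_finsetSum _ fun e _ => hi e).div_const 4) hl
  rw [integral_div, integral_finsetSum _ fun e _ => hi e] at h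
  have e1 : ∑ e : Fin d × Bool, (Q (x + vec e) - Q x) =
      ∑ e : Fin d × Bool, ∫ t in Set.Ioi (0:ℝ), (q t (x + vec e) - q t x) :=
    sum_congr rfl fun e _ => (integral_sub (q_int hd _) (q_int hd _)).symm
  rw [e1]
  linarith

lemma Q_summ : Summable (Q : (Fin d → ℤ) → ℝ) := by
  refine Summable.of_abs (summable_of_sum_le (fun _ => abs_nonneg _)
    (c := ∫ t in Set.Ioi (0:ℝ), 4 * (16 * u t ^ 3)) fun S => ?_)
  have hi : ∀ x : Fin d → ℤ, IntegrableOn (fun t => |q t x|) (Set.Ioi (0:ℝ)) :=
    fun x => (q_int hd _).abs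
  calc _ ≤ ∑ x ∈ S, ∫ t in Set.Ioi (0:ℝ), |q t x| := sum_le_sum fun x _ =>
        abs_integral_le_integral_abs
    _ = ∫ t in Set.Ioi (0:ℝ), ∑ x ∈ S, |q t x| := (integral_finsetSum _ fun x _ => hi x).symm
    _ ≤ _ := setIntegral_mono_on (integrable_finsetSum _ fun x _ => hi x)
        (u_int.const_mul 4) measurableSet_Ioi fun _ ht => q_sum hd (le_of_lt ht) S

omit hd in
lemma q_zero (x : Fin d → ℤ) : ∃ k : ℤ, q 0 x = k := by
  refine ⟨∏ i : Fin d, if i.val < 3 then (if x i + 1 = 0 then 1 else 0) - (if x i = 0 then 1 else 0)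
    else if x i = 0 then 1 else 0, ?_⟩
  simp only [q, cc, b_zero]
  push_cast
  rfl

omit hd in
lemma q_zero_zero : q 0 (0 : Fin d → ℤ) ≠ 0 := by
  refine prod_ne_zero_iff.2 fun i _ => ?_
  simp only [cc, b_zero]
  split_ifs <;> simp_all

lemma q_supp (x : Fin d → ℤ) (h : q 0 x ≠ 0) :
    x ⟨0, by omega⟩ = 0 ∨ x ⟨0, by omega⟩ = -1 := by
  have := prod_ne_zero_iff.1 h ⟨0, by omega⟩ (mem_univ _)
  simp only [cc, b_zero] at this
  by_contra h'
  rw [if_pos (by norm_num), if_neg (by omega), if_neg (by omega)] at this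
  simp at this

/-- `Q` does not have finite support -/
lemma Q_inf : ¬ (Function.support (Q : (Fin d → ℤ) → ℝ)).Finite := by
  intro hf
  set i : Fin d := ⟨0, by omega⟩ with hi
  have hne : (Function.support (Q : (Fin d → ℤ) → ℝ)).Nonempty := by
    by_contra h
    rw [Set.not_nonempty_iff_eq_empty, Function.support_eq_empty_iff] at h
    have := Q_lap hd (0 : Fin d → ℤ)
    simp only [h, Pi.zero_apply, sub_self, sum_const_zero] at this
    exact q_zero_zero (d := d) (by linarith)
  have key : ∀ (β : Bool) (s : ℤ), s = (if β then 1 else -1) → ∀ x, Q x ≠ 0 →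
      (∀ y, Q y ≠ 0 → s * y i ≤ s * x i) → q 0 (x + vec (i, β)) ≠ 0 := by
    intro β s hs x hx hmax h0
    have hs2 : s = 1 ∨ s = -1 := by cases β <;> simp [hs]
    have h1 := Q_lap hd (x + vec (i, β))
    have hv : vec (i, β) i = s := by simp [vec, hs]
    have h2 : Q (x + vec (i, β)) = 0 := by
      by_contra h
      have := hmax _ h
      rw [Pi.add_apply, hv] at this
      rcases hs2 with rfl | rfl <;> omega
    rw [h0, h2, sum_eq_single (i, !β)] at h1
    · have : x + vec (i, β) + vec (i, !β) = x := by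
        rw [add_assoc, vec, vec, ← Pi.single_add]; cases β <;> simp
      rw [this] at h1
      exact hx (by linarith)
    · rintro ⟨j, γ⟩ - hj
      rw [sub_zero]
      by_contra h
      have := hmax _ h
      rw [Pi.add_apply, Pi.add_apply, hv] at this
      by_cases hji : j = i
      · subst hji
        have hγ : γ = β := by
          cases β <;> cases γ <;> simp_all
        rw [hγ, hv] at this
        rcases hs2 with rfl | rfl <;> omega
      · have h3 : vec (j, γ) i = 0 := by simp [vec, Pi.single_eq_of_ne (Ne.symm hji)]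
        rw [h3] at this
        rcases hs2 with rfl | rfl <;> omega
    · simp
  obtain ⟨x, hx, hx'⟩ := Set.exists_max_image _ (fun y : Fin d → ℤ => y i) hf hne
  obtain ⟨y, hy, hy'⟩ := Set.exists_min_image _ (fun y : Fin d → ℤ => y i) hf hne
  have h1 := q_supp hd _ (key true 1 (by simp) x hx fun z hz => by simpa using hx' z hz)
  have h2 := q_supp hd _ (key false (-1) (by simp) y hy fun z hz => by simpa using hy' z hz)
  have h3 := hx' y hy
  simp only [← hi, Pi.add_apply, vec, Pi.single_eq_same, if_true, Bool.false_eq_true,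
    if_false] at h1 h2 h3
  omega

omit hd in
lemma int_lim {f : ℕ → ℝ} {c : ℝ} (h : Tendsto f atTop (𝓝 c)) (hf : ∀ n, ∃ k : ℤ, f n = k) :
    ∃ k : ℤ, c = k := by
  have := Int.isClosedEmbedding_coe_real.isClosed_range.mem_of_tendsto h
    (Eventually.of_forall fun n => (hf n).imp fun k hk => hk.symm)
  exact this.imp fun k hk => hk.symm

theorem exists_h (a : Fin d → ℤ) : ∃ (h : (Fin d → ℤ) → ℝ) (e : Fin d × Bool), Summable h ∧
    (∀ x, ∃ k : ℤ, ∑ e : Fin d × Bool, (h (x + vec e) - h x) = 2 * d * k) ∧ h a = 0 ∧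
    ∀ k : ℤ, h (a + vec e) ≠ k := by
  set h0 : (Fin d → ℤ) → ℝ := fun x => 2 * d / 4 * Q x with hh
  have s0 : Summable h0 := (Q_summ hd).mul_left _
  have l0 : ∀ x, ∃ k : ℤ, ∑ e : Fin d × Bool, (h0 (x + vec e) - h0 x) = 2 * d * k := fun x => by
    obtain ⟨k, hk⟩ := q_zero x
    refine ⟨-k, ?_⟩
    simp only [hh, ← mul_sub, ← mul_sum, Q_lap hd, hk]
    push_cast; ring
  by_contra hcon
  push Not at hcon
  have neg : ∀ e : Fin d × Bool, vec (e.1, !e.2) = -vec e := by
    rintro ⟨i, β⟩; rw [vec, vec, ← Pi.single_neg]; cases β <;> simp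
  have key : ∀ z e, ∃ k : ℤ, h0 (z + vec e) - h0 (z - vec e) = k := by
    intro z e
    have := hcon (fun x => h0 (x + (z - a)) - h0 (z + a - x)) e
      ((s0.comp_injective (add_left_injective _)).sub (s0.comp_injective sub_right_injective))
      (fun x => ?_) (by simp)
    · simpa [show a + vec e + (z - a) = z + vec e by abel,
        show z + a - (a + vec e) = z - vec e by abel] using this
    obtain ⟨k, hk⟩ := l0 (x + (z - a))
    obtain ⟨l, hl⟩ := l0 (z + a - x)
    refine ⟨k - l, ?_⟩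
    have h1 : ∑ e : Fin d × Bool, (h0 (z + a - x + vec e) - h0 (z + a - x)) =
        ∑ e : Fin d × Bool, (h0 (z + a - (x + vec e)) - h0 (z + a - x)) := by
      symm
      refine Fintype.sum_equiv ((Equiv.refl _).prodCongr Equiv.boolNot) _ _ fun e => ?_
      have : (Equiv.refl _).prodCongr Equiv.boolNot e = (e.1, !e.2) := rfl
      rw [this, neg, show z + a - x + -vec e = z + a - (x + vec e) by abel]
    push_cast
    rw [mul_sub, ← hk, ← hl, h1, ← sum_sub_distrib]
    refine sum_congr rfl fun e _ => ?_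
    rw [show x + vec e + (z - a) = x + (z - a) + vec e by abel]; ring
  have e₀ : Fin d × Bool := (⟨0, by omega⟩, true)
  have hv : vec e₀ ≠ 0 := fun h => by
    have := congrFun h e₀.1
    simp only [vec, Pi.single_eq_same, Pi.zero_apply] at this
    split_ifs at this <;> omega
  have int0 : ∀ z, ∃ k : ℤ, h0 z = k := by
    intro z
    have h1 : ∀ n : ℕ, ∃ k : ℤ, h0 z - h0 (z + (2 * n) • vec e₀) = k := by
      intro n
      induction n with
      | zero => exact ⟨0, by simp⟩
      | succ n ih =>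
        obtain ⟨k, hk⟩ := ih
        obtain ⟨l, hl⟩ := key (z + (2 * n + 1) • vec e₀) e₀
        refine ⟨k - l, ?_⟩
        rw [show z + (2 * n + 1) • vec e₀ + vec e₀ = z + (2 * (n + 1)) • vec e₀ by
          rw [mul_add, add_smul, add_smul]; abel,
          show z + (2 * n + 1) • vec e₀ - vec e₀ = z + (2 * n) • vec e₀ by
          rw [add_smul]; abel] at hl
        push_cast; linarith
    have h2 : Function.Injective fun n : ℕ => z + (2 * n) • vec e₀ := fun n n' h => by
      have h' : ((2 * n : ℕ) : ℤ) • vec e₀ = ((2 * n' : ℕ) : ℤ) • vec e₀ := by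
        rw [natCast_zsmul, natCast_zsmul]; exact add_left_cancel (a := z) h
      have := smul_left_injective ℤ hv h'
      omega
    have h3 := s0.tendsto_cofinite_zero.comp h2.tendsto_cofinite
    rw [Nat.cofinite_eq_atTop] at h3
    exact int_lim (by simpa using h3.const_sub (h0 z)) h1
  refine Q_inf hd ?_
  have h4 := s0.tendsto_cofinite_zero.eventually (Ioo_mem_nhds (show (-1:ℝ) < 0 by norm_num) one_pos)
  refine (eventually_cofinite.1 h4).subset fun x hx hx' => ?_
  obtain ⟨k, hk⟩ := int0 x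
  rw [hk] at hx'
  have h5 : (-1:ℤ) < k := by exact_mod_cast hx'.1
  have h6 : k < 1 := by exact_mod_cast hx'.2
  have h7 : k = 0 := by omega
  have h8 : (0:ℝ) < 2 * d / 4 := by
    have : (0:ℝ) < d := by exact_mod_cast (by omega : 0 < d)
    positivity
  rw [h7, Int.cast_zero, hh] at hk
  exact hx ((mul_eq_zero.1 hk).resolve_left h8.ne')

end Pool.Agent.H.MP_c09afc_pr
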