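import Mathlib
import Pool.Agent.H.MP_c09afc_pr.A
import Pool.Agent.H.MP_c09afc_pr.B
open Finset Filter Topology MeasureTheory
namespace Pool.Agent.H.MP_c09afc_pr

variable {d : ℕ}

lemma cyc_pot {E : Type} [Fintype E] [DecidableEq E] (π : Equiv.Perm E) (hπ : π.IsCycleOn Set.univ)
    (f : E → ℝ) (hf : ∑ e, f e = 0) :
    ∃ w : E → ℝ, (∀ e, w (π e) - w e = f e) ∧ ∀ e, |w e| ≤ ∑ e, |f e| := by
  have hc : π.IsCycleOn ((univ : Finset E) : Set _) := by simpa using hπ
  set N := (univ : Finset E).card with hN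
  have sc : ∀ (e : E) (f : E → ℝ), ∑ j ∈ range N, f ((π ^ j) e) = ∑ e, f e := fun e f => by
    refine sum_bij (fun j _ => (π ^ j) e) (by simp) (fun a ha b hb h => ?_) (fun b _ => ?_) (by simp)
    · exact ((hc.pow_apply_eq_pow_apply (mem_univ e)).1 h).eq_of_lt_of_lt (mem_range.1 ha)
        (mem_range.1 hb)
    · obtain ⟨j, h1, h2⟩ := hc.exists_pow_eq (mem_univ e) (mem_univ b)
      exact ⟨j, mem_range.2 h1, h2⟩
  refine ⟨fun e => (∑ j ∈ range N, j * f ((π ^ j) e)) / N, fun e => ?_, fun e => ?_⟩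
  · have dp : (0:ℝ) < N := by exact_mod_cast card_pos.2 ⟨e, mem_univ e⟩
    have h1 := sum_range_succ' (fun j : ℕ => ((j:ℝ) - 1) * f ((π ^ j) e)) N
    have h2 := hc.pow_card_apply (mem_univ e)
    rw [sum_range_succ, h2] at h1
    have h3 := sc e f
    rw [hf] at h3
    simp only [sub_mul, one_mul, sum_sub_distrib, h3, pow_succ, Equiv.Perm.mul_apply] at h1
    push_cast at h1
    simp only [add_mul, one_mul, sum_add_distrib] at h1
    rw [← sub_div, div_eq_iff dp.ne']
    simp only [Equiv.Perm.coe_pow, Function.iterate_zero, id] at h1 ⊢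
    linarith
  · have dp : (0:ℝ) < N := by exact_mod_cast card_pos.2 ⟨e, mem_univ e⟩
    rw [abs_div, abs_of_pos dp, div_le_iff₀ dp, ← sc e (fun e => |f e|), sum_mul]
    refine (abs_sum_le_sum_abs _ _).trans (sum_le_sum fun j hj => ?_)
    rw [abs_mul, Nat.abs_cast, mul_comm]
    have : (j:ℝ) ≤ N := by exact_mod_cast (mem_range.1 hj).le
    gcongr

theorem potential (hd : 3 ≤ d) (m : (Fin d → ℤ) → Equiv.Perm (Fin d × Bool))
    (hm : ∀ x, (m x).IsCycleOn Set.univ) (h : (Fin d → ℤ) → ℝ) (hs : Summable h)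
    (hl : ∀ x, ∃ k : ℤ, ∑ e : Fin d × Bool, (h (x + vec e) - h x) = 2 * d * k) :
    ∃ Φ : ((Fin d → ℤ) → Fin d × Bool) → ℝ, Measurable Φ ∧
      ∀ c ρ, Trans m c ρ → ∃ k : ℤ, Φ (fin m c ρ) - Φ ρ + h c = k := by
  choose k hk using hl
  have dp : (0:ℝ) < d := by exact_mod_cast (by omega : 0 < d)
  set F : (Fin d → ℤ) → Fin d × Bool → ℝ := fun x e => h (x + vec e) - h x - k x with hF
  have F0 : ∀ x, ∑ e, F x (m x e) = 0 := fun x => by
    rw [Equiv.sum_comp (m x) (F x)]
    simp only [hF]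
    rw [sum_sub_distrib, hk]; simp; ring
  choose w hw1 hw2 using fun x => cyc_pot (m x) (hm x) _ (F0 x)
  have sF : ∀ e, Summable fun x => h (x + vec e) - h x := fun e =>
    (hs.comp_injective (add_left_injective _)).sub hs
  have sk : Summable fun x => (k x : ℝ) := by
    have := (summable_sum (s := univ) fun e _ => sF e).mul_left (2 * d : ℝ)⁻¹
    refine this.congr fun x => ?_
    rw [hk]; field_simp
  set B : (Fin d → ℤ) → ℝ := fun x => ∑ e, |F x e| with hB
  have sB : Summable B := summable_sum fun e _ => ((sF e).sub sk).abs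
  have wB : ∀ x e, ‖w x e‖ ≤ B x := fun x e => by
    have := hw2 x e
    rwa [Equiv.sum_comp (m x) fun e => |F x e|] at this
  have sw : ∀ ρ : (Fin d → ℤ) → Fin d × Bool, Summable fun x => w x (ρ x) := fun ρ =>
    Summable.of_norm_bounded sB fun x => wB x _
  refine ⟨fun ρ => ∑' x, w x (ρ x), ?_, fun c ρ ht => ?_⟩
  · exact Measurable.tsum fun x => (measurable_of_countable (w x)).comp (measurable_pi_apply x)
  have h1 : ∀ t, ∃ l : ℤ,
      (∑' x, w x (rot m c ρ t x)) - h (pos m c ρ t) - (∑' x, w x (ρ x)) + h c = l := by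
    intro t
    induction t with
    | zero => exact ⟨0, by simp [rot, pos]⟩
    | succ t ih =>
      obtain ⟨l, hl⟩ := ih
      refine ⟨l - k (pos m c ρ t), ?_⟩
      have h2 : ∑' x, w x (rot m c ρ (t + 1) x) - ∑' x, w x (rot m c ρ t x) =
          F (pos m c ρ t) (m (pos m c ρ t) (rot m c ρ t (pos m c ρ t))) := by
        rw [← (sw _).tsum_sub (sw _), tsum_eq_single (pos m c ρ t), rot_succ, Function.update_self,
          hw1]
        intro y hy
        rw [rot_succ, Function.update_of_ne hy, sub_self]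
      rw [pos_succ]
      simp only [hF] at h2
      push_cast; linarith
  refine int_lim ?_ h1
  have h3 : Tendsto (fun t => ∑' x, w x (rot m c ρ t x)) atTop (𝓝 (∑' x, w x (fin m c ρ x))) :=
    tendsto_tsum_of_dominated_convergence sB
      (fun x => tendsto_const_nhds.congr' ((rot_ev ht x).mono fun t h => congrArg (w x) h.symm))
      (Eventually.of_forall fun t x => wB x _)
  have h4 : Tendsto (pos m c ρ) atTop cofinite := by
    rw [← Nat.cofinite_eq_atTop]
    exact Filter.Tendsto.cofinite_of_finite_preimage_singleton fun x => (ht x).to_subtype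
  have h5 := hs.tendsto_cofinite_zero.comp h4
  simpa using ((h3.sub h5).sub_const (∑' x, w x (ρ x))).add_const (h c)

theorem main (hd : 3 ≤ d) (m : (Fin d → ℤ) → Equiv.Perm (Fin d × Bool))
    (hm : ∀ x, (m x).IsCycleOn Set.univ) (a : Fin d → ℤ)
    (μ : Measure ((Fin d → ℤ) → Fin d × Bool)) (hμ : Stat m a μ) :
    ∃ ν, Stat m a ν ∧ ν ≠ μ := by
  by_contra hcon
  push Not at hcon
  obtain ⟨h, e, hs, hl, ha, hb⟩ := exists_h hd a
  obtain ⟨Φ, mΦ, hΦ⟩ := potential hd m hm h hs hl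
  obtain ⟨h1, h2, h3⟩ := (stat_iff m a μ).1 hμ
  obtain ⟨h4, h5⟩ := shift m hm a e μ hμ
  have h6 := hcon _ h5
  have mΨ : Measurable fun ρ => Int.fract (Φ ρ) := measurable_fract.comp mΦ
  have inv : ∀ᵐ ρ ∂μ, Int.fract (Φ (fin m a ρ)) = Int.fract (Φ ρ) := h2.mono fun ρ hρ => by
    obtain ⟨k, hk⟩ := hΦ a ρ hρ
    exact Int.fract_eq_fract.2 ⟨k, by rw [← hk, ha, add_zero]⟩
  obtain ⟨p, hp⟩ : ∃ p, (fun ρ => Int.fract (Φ ρ)) =ᵐ[μ] Function.const _ p := by
    refine exists_eventuallyEq_const_of_forall_separating MeasurableSet fun U hU => ?_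
    set A := (fun ρ => Int.fract (Φ ρ)) ⁻¹' U with hA
    have mA : MeasurableSet A := mΨ hU
    by_cases h0 : μ A = 0
    · exact Or.inr (measure_eq_zero_iff_ae_notMem.1 h0)
    left
    have h7 : Stat m a (ProbabilityTheory.cond μ A) := by
      refine (stat_iff m a _).2 ⟨ProbabilityTheory.cond_isProbabilityMeasure h0,
        ProbabilityTheory.cond_absolutelyContinuous.ae_le h2, ?_⟩
      have h8 : A =ᵐ[μ] fin m a ⁻¹' A := inv.mono fun ρ hρ => by
        show (Int.fract (Φ ρ) ∈ U) = (Int.fract (Φ (fin m a ρ)) ∈ U)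
        rw [hρ]
      rw [ProbabilityTheory.cond, Measure.map_smul]
      congr 1
      conv_rhs => rw [← h3]
      rw [Measure.restrict_map (meas_fin m a) mA, ← Measure.restrict_congr_set h8]
    have h9 := ProbabilityTheory.ae_cond_mem (μ := μ) mA
    rw [hcon _ h7] at h9
    exact h9
  have hp' : ∀ᵐ ρ ∂μ, Int.fract (Φ (fin m (a + vec e) ρ)) = p :=
    (⟨meas_fin m _, h6⟩ : MeasurePreserving (fin m (a + vec e)) μ μ).quasiMeasurePreserving.ae hp
  obtain ⟨ρ, k1, k2, k3⟩ := (hp.and (hp'.and h4)).exists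
  obtain ⟨k, hk⟩ := hΦ _ ρ k3
  obtain ⟨l, hl⟩ := Int.fract_eq_fract.1 (k2.trans (show Int.fract (Φ ρ) = p from k1).symm)
  exact hb (k - l) (by push_cast; linarith)

end Pool.Agent.H.MP_c09afc_pr
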